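import Mathlib
import Pool.Agent.H80.AG.Targets9

/-!
ABSOLUTE GAP (`MP_c59857_nt`), row CTX: pigeonhole, and the data.
-/

set_option autoImplicit false

open MeasureTheory ProbabilityTheory Filter Topology Finset
open scoped Nat ENNReal

namespace Pool.Agent.H66.AG

open Pool.Agent.H24.MR (lam dens)
open Pool.Agent.H24.T2 (Pset rel)
open Pool.Agent.H67.AG Pool.Agent.H80.AG

/-- a limit along an ultrafilter of a sequence in `[0, 1]` -/
theorem ul_le (U : Ultrafilter ℕ) (f : ℕ → ℝ) (c : ℝ) (h0 : ∀ n, 0 ≤ f n) (h1 : ∀ n, f n ≤ 1)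
    (hc : ∀ᶠ n in (U : Filter ℕ), f n ≤ c) : ul U f ≤ c := by
  have hcp : IsCompact (Set.Icc (0 : ℝ) 1) := isCompact_Icc
  have hle : ((U.map f : Ultrafilter ℝ) : Filter ℝ) ≤ 𝓟 (Set.Icc (0 : ℝ) 1) := by
    rw [le_principal_iff, Ultrafilter.mem_coe, Ultrafilter.mem_map]
    apply Filter.univ_mem'
    intro k
    exact ⟨h0 k, h1 k⟩
  obtain ⟨x, -, hx⟩ := hcp.ultrafilter_le_nhds _ hle
  have ht : Tendsto f (U : Filter ℕ) (𝓝 x) := hx
  have e : ul U f = x := ht.limUnder_eq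
  rw [e]
  exact le_of_tendsto ht hc

/-- pigeonhole -/
theorem pig {α : Type} [Finite α] (R : ℕ → ℕ → α → Prop)
    (h : ∃ᶠ w in (atTop : Filter ℕ), ∃ᶠ i in (atTop : Filter ℕ), ∃ c, R w i c) :
    ∃ c, ∃ᶠ w in (atTop : Filter ℕ), ∃ᶠ i in (atTop : Filter ℕ), R w i c := by
  by_contra hno
  push Not at hno
  have h1 : ∀ᶠ w in (atTop : Filter ℕ), ∀ c, ∀ᶠ i in (atTop : Filter ℕ), ¬ R w i c :=
    eventually_all.2 hno
  refine h (h1.mono fun w hw => ?_)
  rw [not_frequently]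
  exact (eventually_all.2 hw).mono fun i hi => by push Not; exact hi

variable (Q : ℕ) [NeZero Q]

theorem shM_iter (n : ℕ) (x : Om Q) : ((shM Q)^[n] x).2.1 = x.2.1 + (n : ZMod Q) := by
  induction n generalizing x with
  | zero => simp
  | succ n ih =>
    rw [Function.iterate_succ_apply, ih]
    have : (shM Q x).2.1 = x.2.1 + 1 := rfl
    rw [this]
    push_cast
    ring

theorem measYc (c : ZMod Q) : MeasurableSet {x : Om Q | x.2.1 = c} := by
  have h : Measurable fun x : Om Q => x.2.1 := measurable_fst.comp measurable_snd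
  exact h (measurableSet_singleton c)

theorem nuYc (ν : Measure (Om Q)) [IsProbabilityMeasure ν] (h : MeasurePreserving (shM Q) ν ν)
    (c : ZMod Q) : ν.real {x : Om Q | x.2.1 = c} = 1 / Q := by
  have h1 : ∀ c : ZMod Q, ν.real {x : Om Q | x.2.1 = c + 1} = ν.real {x : Om Q | x.2.1 = c} := by
    intro c
    rw [← h.measureReal_preimage (measYc Q (c + 1)).nullMeasurableSet]
    congr 1
    ext x
    have : (shM Q x).2.1 = x.2.1 + 1 := rfl
    simp only [Set.mem_preimage, Set.mem_ofPred_eq, this]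
    exact add_left_inj 1
  have h2 : ∀ n : ℕ, ν.real {x : Om Q | x.2.1 = (n : ZMod Q)} =
      ν.real {x : Om Q | x.2.1 = 0} := by
    intro n
    induction n with
    | zero => simp
    | succ n ih =>
      rw [← ih, ← h1 (n : ZMod Q)]
      push_cast
      rfl
  have h3 : ∀ c : ZMod Q, ν.real {x : Om Q | x.2.1 = c} = ν.real {x : Om Q | x.2.1 = 0} := by
    intro c
    have := h2 c.val
    rwa [ZMod.natCast_zmod_val] at this
  have h4 : ∑ c : ZMod Q, ν.real {x : Om Q | x.2.1 = c} = 1 := by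
    have := sum_measureReal_preimage_singleton (μ := ν) (Finset.univ : Finset (ZMod Q))
      (f := fun x : Om Q => x.2.1) (fun y _ => measYc Q y)
    have e : (fun x : Om Q => x.2.1) ⁻¹' ((Finset.univ : Finset (ZMod Q)) : Set (ZMod Q)) =
        Set.univ := by simp
    rw [e, probReal_univ] at this
    exact this
  simp only [h3] at h4
  rw [h3 c]
  rw [sum_const, card_univ, ZMod.card, nsmul_eq_mul] at h4
  have hQ : (Q : ℝ) ≠ 0 := by exact_mod_cast NeZero.ne Q
  field_simp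
  linarith

/-- CTX -/
theorem pf_CTX : T_CTX := by
  classical
  intro Q k _ β η m ν hQe hβ hη hηκ hν herg hmr hm hfr
  have hQ0 : 0 < Q := Nat.pos_of_ne_zero (NeZero.ne Q)
  obtain ⟨⟨c, b⟩, hcb⟩ := pig (α := ZMod Q × Bool) (fun w i cb =>
    ∑ p ∈ Pset (Q * w !) (m w i), ν.real {x | x.2.1 = cb.1 ∧ x ∈ RB Q β p cb.2} ≤
      22 * η / Q * (Pset (Q * w !) (m w i)).card) (hfr.mono fun w hw => hw.mono fun i hi => by
        obtain ⟨c, b, h⟩ := hi
        exact ⟨(c, b), h⟩)
  simp only at hcb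
  have hY := nuYc Q ν herg.toMeasurePreserving c
  -- the ultrafilter of the w
  let S : Set ℕ := {w | ∃ᶠ i in (atTop : Filter ℕ),
    ∑ p ∈ Pset (Q * w !) (m w i), ν.real {x | x.2.1 = c ∧ x ∈ RB Q β p b} ≤
      22 * η / Q * (Pset (Q * w !) (m w i)).card}
  have hne : NeBot ((atTop : Filter ℕ) ⊓ 𝓟 S) := frequently_iff_neBot.1 hcb
  have hV1 : ((Ultrafilter.of ((atTop : Filter ℕ) ⊓ 𝓟 S) : Ultrafilter ℕ) : Filter ℕ) ≤ atTop :=
    (Ultrafilter.of_le _).trans inf_le_left
  have hV2 : ((Ultrafilter.of ((atTop : Filter ℕ) ⊓ 𝓟 S) : Ultrafilter ℕ) : Filter ℕ) ≤ 𝓟 S :=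
    (Ultrafilter.of_le _).trans inf_le_right
  -- the ultrafilters of the scales
  have hU : ∀ w, ∃ U : Ultrafilter ℕ, (U : Filter ℕ) ≤ atTop ∧ (w ∈ S →
      ∀ᶠ j in (U : Filter ℕ), ∑ p ∈ Pset (Q * w !) j, ν.real {x | x.2.1 = c ∧ x ∈ RB Q β p b} ≤
      22 * η / Q * (Pset (Q * w !) j).card) := by
    intro w
    by_cases hw : w ∈ S
    · have ht : Tendsto (m w) atTop atTop := tendsto_atTop_mono (hm w) tendsto_id
      have hf : ∃ᶠ j in (atTop : Filter ℕ), ∑ p ∈ Pset (Q * w !) j,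
          ν.real {x | x.2.1 = c ∧ x ∈ RB Q β p b} ≤ 22 * η / Q * (Pset (Q * w !) j).card :=
        ht.frequently hw
      have hne' := frequently_iff_neBot.1 hf
      refine ⟨Ultrafilter.of ((atTop : Filter ℕ) ⊓ 𝓟 {j | ∑ p ∈ Pset (Q * w !) j,
          ν.real {x | x.2.1 = c ∧ x ∈ RB Q β p b} ≤ 22 * η / Q * (Pset (Q * w !) j).card}),
        (Ultrafilter.of_le _).trans inf_le_left, fun _ => ?_⟩
      exact le_principal_iff.1 ((Ultrafilter.of_le _).trans inf_le_right)
    · exact ⟨hyperfilter ℕ, by rw [← Nat.cofinite_eq_atTop]; exact hyperfilter_le_cofinite,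
        fun h => absurd h hw⟩
  choose U hU1 hU2 using hU
  have hDm : Measurable (DD Q) := by
    have h1 : Measurable fun ω : Om Q => ω.1 0 := (measurable_pi_apply 0).comp measurable_fst
    exact (measurable_from_top (f := sg)).comp h1
  have hsg : ∀ b, sg b = 1 ∨ sg b = -1 := by
    intro b
    cases b <;> simp [sg]
  refine ⟨{
    X := Om Q
    μ := ν
    T := shM Q
    erg := herg
    D := DD Q
    Dm := hDm
    Dv := fun x => hsg _
    mr := hmr
    k := k + 1
    kpos := Nat.succ_pos k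
    Q := Q
    Qpos := hQ0
    Qev := hQe
    β := β
    inj := hβ
    σ := sg b
    σv := hsg b
    Y := {x | x.2.1 = c}
    Ym := measYc Q c
    Yinv := ?_
    Ypos := by rw [hY]; positivity
    V := Ultrafilter.of ((atTop : Filter ℕ) ⊓ 𝓟 S)
    hV := hV1
    U := U
    hU := hU1
    rel := ?_ }⟩
  · ext x
    rw [Set.mem_preimage, Set.mem_ofPred_eq, Set.mem_ofPred_eq, shM_iter, ZMod.natCast_self,
      add_zero]
  · have hS : ∀ᶠ w in ((Ultrafilter.of ((atTop : Filter ℕ) ⊓ 𝓟 S) : Ultrafilter ℕ) : Filter ℕ),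
        w ∈ S := le_principal_iff.1 hV2
    filter_upwards [hS] with w hw
    refine ul_le _ _ _ (fun j => ?_) (fun j => ?_) ?_
    · unfold avgP
      exact div_nonneg (sum_nonneg fun _ _ => measureReal_nonneg) (Nat.cast_nonneg _)
    · unfold avgP
      refine div_le_one_of_le₀ ?_ (Nat.cast_nonneg _)
      calc ∑ p ∈ Pset (Q * w !) j, ν.real ({x : Om Q | x.2.1 = c} ∩
            {x | ∏ i, DD Q ((shM Q)^[p * β i] x) ≠ sg b})
          ≤ ∑ p ∈ Pset (Q * w !) j, (1 : ℝ) := sum_le_sum fun _ _ => measureReal_le_one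
        _ = _ := by rw [sum_const, nsmul_eq_mul, mul_one]
    · filter_upwards [hU2 w hw] with j hj
      unfold avgP
      have h1 : ∑ p ∈ Pset (Q * w !) j, ν.real ({x : Om Q | x.2.1 = c} ∩
            {x | ∏ i, DD Q ((shM Q)^[p * β i] x) ≠ sg b}) ≤
          22 * η / Q * (Pset (Q * w !) j).card := hj
      have h2 : 22 * η / Q ≤ κ₀ * ν.real {x : Om Q | x.2.1 = c} := by
        rw [hY, mul_one_div]
        exact div_le_div_of_nonneg_right hηκ (Nat.cast_nonneg _)
      have h3 : (0 : ℝ) ≤ κ₀ * ν.real {x : Om Q | x.2.1 = c} := by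
        have : (0 : ℝ) ≤ κ₀ := by unfold κ₀; norm_num
        positivity
      refine div_le_of_le_mul₀ (Nat.cast_nonneg _) h3 ?_
      exact h1.trans (mul_le_mul_of_nonneg_right h2 (Nat.cast_nonneg _))

end Pool.Agent.H66.AG
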