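import Mathlib
import Pool.Agent.H59.MR.Dens
import Pool.Agent.H80.AG.Targets9

/-!
ABSOLUTE GAP (`MP_c59857_nt`), row UNI: the invariant measure of a sequence of families of
densities.
-/

set_option autoImplicit false

open MeasureTheory ProbabilityTheory Filter Topology Finset
open scoped Nat ENNReal

namespace Pool.Agent.H66.AG

open Pool.Agent.H24.MR (lam dens)
open Pool.Agent.H59.MR (ratio tendsto_dens)
open Pool.Agent.H67.AG Pool.Agent.H80.AG

/-- empirical measure -/
noncomputable def emp {Ω : Type} [MeasurableSpace Ω] (pt : ℕ → Ω) (n : ℕ) : Measure Ω :=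
  (n : ℝ≥0∞)⁻¹ • ∑ j ∈ range n, Measure.dirac (pt j)

theorem emp_prob {Ω : Type} [MeasurableSpace Ω] (pt : ℕ → Ω) (n : ℕ) (hn : 0 < n) :
    IsProbabilityMeasure (emp pt n) := by
  refine ⟨?_⟩
  unfold emp
  rw [Measure.smul_apply, Measure.finsetSum_apply]
  simp only [measure_univ, sum_const, card_range, nsmul_eq_mul, mul_one, smul_eq_mul]
  exact ENNReal.inv_mul_cancel (by exact_mod_cast hn.ne') (ENNReal.natCast_ne_top n)

theorem emp_int {Ω : Type} [TopologicalSpace Ω] [CompactSpace Ω] [T2Space Ω] [MeasurableSpace Ω]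
    [BorelSpace Ω] (pt : ℕ → Ω) (n : ℕ) (f : C(Ω, ℝ)) :
    ∫ ω, f ω ∂(emp pt n) = (∑ j ∈ range n, f (pt j)) / n := by
  unfold emp
  rw [integral_smul_measure, integral_finsetSum_measure]
  · simp only [integral_dirac, smul_eq_mul]
    rw [ENNReal.toReal_inv, ENNReal.toReal_natCast]
    ring
  · intro j _
    have : IsProbabilityMeasure (Measure.dirac (pt j)) := inferInstance
    exact f.continuous.integrable_of_hasCompactSupport (HasCompactSupport.of_compactSpace _)

/-- the indicator function of a clopen set -/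
noncomputable def ind {Ω : Type} [TopologicalSpace Ω] (C : Set Ω) (hC : IsClopen C) : C(Ω, ℝ) :=
  ⟨C.indicator 1, (continuous_indicator (by
    intro a ha
    rw [hC.frontier_eq] at ha
    exact absurd ha (Set.notMem_empty a)) (continuous_const.continuousOn))⟩

theorem ind_int {Ω : Type} [TopologicalSpace Ω] [MeasurableSpace Ω] [BorelSpace Ω] (C : Set Ω)
    (hC : IsClopen C) (P : Measure Ω) : ∫ ω, ind C hC ω ∂P = P.real C := by
  change ∫ ω, C.indicator 1 ω ∂P = P.real C
  rw [integral_indicator_one hC.isOpen.measurableSet]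

theorem one (hC : T_CPL) {Ω : Type} [TopologicalSpace Ω] [CompactSpace Ω] [T2Space Ω]
    [SecondCountableTopology Ω] [MeasurableSpace Ω] [BorelSpace Ω] (T : Ω ≃ₜ Ω)
    (U : Ultrafilter ℕ) (N : ℕ → ℕ) (hN : Tendsto N (U : Filter ℕ) atTop) (pt : ℕ → Ω)
    (hpt : ∀ n, T (pt n) = pt (n + 1)) :
    ∃ R : Measure Ω, IsProbabilityMeasure R ∧
      (∀ f : C(Ω, ℝ), ∫ ω, f (T ω) ∂(R) = ∫ ω, f ω ∂(R)) ∧
      ∀ C : Set Ω, IsClopen C → R.real C = dens U N {n | pt n ∈ C} := by
  classical
  obtain ⟨R, hR, hl⟩ := hC Ω U (fun k => emp pt (N k)) (by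
    filter_upwards [hN.eventually (eventually_gt_atTop 0)] with k hk
    exact emp_prob pt (N k) hk)
  refine ⟨R, hR, fun f => ?_, fun C hC' => ?_⟩
  · have h1 := hl (f.comp ⟨T, T.continuous⟩)
    have h2 := hl f
    have h3 : Tendsto (fun k => ∫ ω, (f.comp ⟨T, T.continuous⟩) ω ∂(emp pt (N k)) -
        ∫ ω, f ω ∂(emp pt (N k))) (U : Filter ℕ) (𝓝 0) := by
      have h0 : Tendsto (fun k => (2 * ‖f‖) * ((1 : ℝ) / (N k : ℝ))) (U : Filter ℕ) (𝓝 0) := by
        have := (tendsto_one_div_atTop_nhds_zero_nat (𝕜 := ℝ)).comp hN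
        simpa using this.const_mul (2 * ‖f‖)
      refine squeeze_zero_norm (fun k => ?_) h0
      rw [emp_int, emp_int, ← sub_div, norm_div, Real.norm_eq_abs, Real.norm_eq_abs, Nat.abs_cast]
      have e : ∑ j ∈ range (N k), (f.comp ⟨T, T.continuous⟩) (pt j) -
          ∑ j ∈ range (N k), f (pt j) = f (pt (N k)) - f (pt 0) := by
        rw [← sum_sub_distrib]
        have : ∀ j, (f.comp ⟨T, T.continuous⟩) (pt j) = f (pt (j + 1)) := fun j => by
          rw [← hpt j]; rfl
        simp only [this]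
        exact sum_range_sub (fun j => f (pt j)) (N k)
      rw [e]
      have h4 : |f (pt (N k)) - f (pt 0)| ≤ 2 * ‖f‖ := by
        have a1 := f.norm_coe_le_norm (pt (N k))
        have a2 := f.norm_coe_le_norm (pt 0)
        rw [Real.norm_eq_abs] at a1 a2
        have := abs_sub (f (pt (N k))) (f (pt 0))
        linarith
      rw [mul_one_div]
      exact div_le_div_of_nonneg_right h4 (Nat.cast_nonneg _)
    have h5 := tendsto_nhds_unique (h1.sub h2) h3
    have h6 : ∫ ω, (f.comp ⟨T, T.continuous⟩) ω ∂(R) = ∫ ω, f ω ∂(R) := by linarith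
    exact h6
  · have h1 := hl (ind C hC')
    rw [ind_int] at h1
    refine tendsto_nhds_unique h1 ((tendsto_dens U N {n | pt n ∈ C}).congr fun k => ?_)
    rw [emp_int]
    unfold ratio
    congr 1
    rw [card_filter]
    push_cast
    refine sum_congr rfl fun j _ => ?_
    change _ = C.indicator 1 (pt j)
    by_cases h : pt j ∈ C
    · simp [h]
    · simp [h]

/-- UNI -/
theorem pf_UNI (hC : T_CPL) : T_UNI := by
  classical
  intro Ω _ _ _ _ _ _ T V F pt hpt
  have h1 : ∀ J, ∀ a : Fin (F J).n, ∃ R : Measure Ω, IsProbabilityMeasure R ∧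
      (∀ f : C(Ω, ℝ), ∫ ω, f (T ω) ∂(R) = ∫ ω, f ω ∂(R)) ∧
      ∀ C : Set Ω, IsClopen C → R.real C = dens ((F J).U a) ((F J).N a) {n | pt J a n ∈ C} :=
    fun J a => one hC T ((F J).U a) ((F J).N a) ((F J).hN a) (pt J a) (hpt J a)
  choose R hR1 hR2 hR3 using h1
  have hint : ∀ J (f : C(Ω, ℝ)),
      ∫ ω, f ω ∂(∑ a, ENNReal.ofReal ((F J).u a) • R J a) =
        ∑ a, (F J).u a * ∫ ω, f ω ∂(R J a) := by
    intro J f
    have hi : ∀ a, Integrable (fun ω => f ω) (R J a) := fun a =>
      f.continuous.integrable_of_hasCompactSupport (HasCompactSupport.of_compactSpace _)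
    rw [integral_finsetSum_measure]
    · refine sum_congr rfl fun a _ => ?_
      rw [integral_smul_measure, ENNReal.toReal_ofReal ((F J).u0 a), smul_eq_mul]
    · intro a _
      exact (hi a).smul_measure ENNReal.ofReal_ne_top
  have hpr : ∀ J, IsProbabilityMeasure (∑ a, ENNReal.ofReal ((F J).u a) • R J a) := by
    intro J
    refine ⟨?_⟩
    rw [Measure.finsetSum_apply]
    simp only [Measure.smul_apply, measure_univ, smul_eq_mul, mul_one]
    rw [← ENNReal.ofReal_sum_of_nonneg (fun a _ => (F J).u0 a), (F J).u1, ENNReal.ofReal_one]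
  obtain ⟨P, hP, hl⟩ := hC Ω V (fun J => ∑ a, ENNReal.ofReal ((F J).u a) • R J a)
    (Eventually.of_forall hpr)
  refine ⟨P, hP, ?_, fun C hCl => ?_⟩
  · refine ⟨T.continuous.measurable, ?_⟩
    have hmt : TopologicalSpace.MetrizableSpace Ω :=
      TopologicalSpace.metrizableSpace_of_t3_secondCountable Ω
    letI : MetricSpace Ω := TopologicalSpace.metrizableSpaceMetric Ω
    have hPT : IsProbabilityMeasure (P.map T) :=
      Measure.isProbabilityMeasure_map T.continuous.aemeasurable
    refine ext_of_forall_integral_eq_of_IsFiniteMeasure fun f => ?_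
    rw [integral_map T.continuous.aemeasurable f.continuous.aestronglyMeasurable]
    have a1 := hl ⟨fun ω => f (T ω), f.continuous.comp T.continuous⟩
    have a2 := hl ⟨f, f.continuous⟩
    refine tendsto_nhds_unique a1 (a2.congr fun J => ?_)
    rw [hint, hint]
    refine sum_congr rfl fun a _ => ?_
    congr 1
    exact (hR2 J a ⟨f, f.continuous⟩).symm
  · have a1 := hl (ind C hCl)
    rw [ind_int] at a1
    refine a1.congr fun J => ?_
    rw [hint]
    unfold Fam.d
    refine sum_congr rfl fun a _ => ?_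
    rw [ind_int, hR3 J a C hCl]

end Pool.Agent.H66.AG
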